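import Mathlib
import Pool.Agent.Lib.helper10.RelFree

namespace Pool.Agent.H.MP_e7abc8_al
open FreeNonUnitalNonAssocAlgebra Pool.Agent.Lib.helper10.VarDefs Pool.Agent.Lib.helper10.RelFree
open Polynomial

noncomputable def idn : FreeNonUnitalNonAssocAlgebra (ZMod 2) ℕ :=
  ((of (ZMod 2) 0 * of (ZMod 2) 0) * (of (ZMod 2) 0 * of (ZMod 2) 0)) *
    (of (ZMod 2) 0 * of (ZMod 2) 0) - of (ZMod 2) 0

theorem sat_iff (A : Type) [NonUnitalNonAssocRing A] [Module (ZMod 2) A]
    [IsScalarTower (ZMod 2) A A] [SMulCommClass (ZMod 2) A A] :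
    Sat {idn} A ↔ ∀ x : A, ((x * x) * (x * x)) * (x * x) = x := by
  constructor
  · intro h x
    have := h idn rfl (fun _ => x)
    simpa [idn, sub_eq_zero] using this
  · rintro h f rfl a
    simp [idn, h]

noncomputable def phi (n : ℕ) : (ZMod 2)[X] :=
  if n % 2 = 0 then X ^ (n / 2 + 1) else divX (X ^ (n / 2))

noncomputable def Phi : (ZMod 2)[X] →ₗ[ZMod 2] (ZMod 2)[X] :=
  (basisMonomials (ZMod 2)).constr (ZMod 2) phi

theorem Phi_pow (n : ℕ) : Phi (X ^ n) = phi n := by
  have := (basisMonomials (ZMod 2)).constr_basis (ZMod 2) phi n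
  rw [← monomial_one_right_eq_X_pow]
  exact this

theorem sq_eq (p : (ZMod 2)[X]) : p * p = expand (ZMod 2) 2 p := by
  have : Fact (Nat.Prime 2) := ⟨Nat.prime_two⟩
  rw [ZMod.expand_card, sq]

theorem Phi1 (p : (ZMod 2)[X]) : Phi (p * p) = X * p := by
  rw [sq_eq]
  induction p using Polynomial.induction_on' with
  | add p q hp hq => rw [map_add, map_add, hp, hq, mul_add]
  | monomial n a =>
    rw [← smul_X_eq_monomial, map_smul, map_smul, map_pow, expand_X, ← pow_mul, Phi_pow, phi,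
      if_pos (by omega), show 2 * n / 2 = n by omega, mul_smul_comm, pow_succ']

theorem Phi2 (p : (ZMod 2)[X]) : Phi (X * p * p) = divX p := by
  rw [mul_assoc, sq_eq]
  induction p using Polynomial.induction_on' with
  | add p q hp hq => rw [map_add, mul_add, map_add, hp, hq, divX_add]
  | monomial n a =>
    rw [← smul_X_eq_monomial, map_smul, mul_smul_comm, map_smul, map_pow, expand_X, ← pow_mul,
      ← pow_succ', Phi_pow, phi, if_neg (by omega), show (2 * n + 1) / 2 = n by omega]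
    ext i
    simp [coeff_divX]

def Mod : Type := (ZMod 2)[X]

noncomputable instance : AddCommGroup Mod := inferInstanceAs (AddCommGroup (ZMod 2)[X])
noncomputable instance : Module (ZMod 2) Mod := inferInstanceAs (Module (ZMod 2) (ZMod 2)[X])

noncomputable def mu : Mod →ₗ[ZMod 2] Mod →ₗ[ZMod 2] Mod :=
  (LinearMap.mul (ZMod 2) (ZMod 2)[X]).compr₂ Phi

noncomputable instance : NonUnitalNonAssocRing Mod where
  mul a b := mu a b
  left_distrib a b c := map_add (mu a) b c
  right_distrib a b c := LinearMap.map_add₂ mu a b c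
  zero_mul a := LinearMap.map_zero₂ mu a
  mul_zero a := map_zero (mu a)

instance : IsScalarTower (ZMod 2) Mod Mod := ⟨fun c a b => LinearMap.map_smul₂ mu c a b⟩
instance : SMulCommClass (ZMod 2) Mod Mod := ⟨fun c a b => (map_smul (mu a) c b).symm⟩

theorem mod_sat : Sat {idn} Mod := by
  rw [sat_iff]
  intro (p : (ZMod 2)[X])
  show Phi (Phi (Phi (p * p) * Phi (p * p)) * Phi (p * p)) = p
  rw [Phi1, Phi1, Phi2]
  ext i
  simp [coeff_divX]

abbrev F1 : Type := B {idn} (Fin 1)

noncomputable def x : F1 := pr {idn} (Fin 1) (of (ZMod 2) 0)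

theorem law (y : F1) : ((y * y) * (y * y)) * (y * y) = y := (sat_iff _).mp (sat _ _) y

theorem w_ne : ((x * x) * x) * ((x * x) * x) - x ≠ 0 := by
  intro h
  obtain ⟨φ, hφ⟩ := univ {idn} (Fin 1) mod_sat (fun _ => (1 : (ZMod 2)[X]))
  have h1 := congrArg φ h
  simp only [map_sub, map_mul, map_zero, x, hφ, sub_eq_zero] at h1
  have h2 : Phi (Phi (Phi (1 * 1) * 1) * Phi (Phi (1 * 1) * 1)) = 1 := h1
  rw [Phi1, Phi1, Phi2] at h2
  simp at h2

end Pool.Agent.H.MP_e7abc8_al
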