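import Mathlib
import Pool.Agent.Lib.helper10.VarDefs

namespace Pool.Agent.H.MP_e7abc8_al
open Pool.Agent.Lib.helper10.VarDefs

/-- `B` is (isomorphic to) the free algebra of rank `n` of the variety defined by `S`, that is
`k{x_1, …, x_n} / T_n`, where `T_n` consists of the elements vanishing identically on every
algebra of the variety. -/
def IsRelFree {k : Type} [CommRing k] (S : Set (FreeNonUnitalNonAssocAlgebra k ℕ)) (n : ℕ)
    (B : Type) [NonUnitalNonAssocRing B] [Module k B] : Prop :=
  ∃ π : FreeNonUnitalNonAssocAlgebra k (Fin n) →ₙₐ[k] B, Function.Surjective π ∧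
    ∀ g, π g = 0 ↔ ∀ (A : Type) [NonUnitalNonAssocRing A] [Module k A] [IsScalarTower k A A]
      [SMulCommClass k A A], Sat S A → ∀ a : Fin n → A, FreeNonUnitalNonAssocAlgebra.lift k a g = 0

end Pool.Agent.H.MP_e7abc8_al
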